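import Mathlib

/-!
# MP_1e0c69_ag

The inequality `WR(f + u g) ≥ d + min_v WR(f + v g)` fails for `n = 3`, `d = 3`,
`f = x₁x₂x₃`, `g = x₁x₂ + x₁x₃ + x₂x₃`.
-/

namespace Pool.Agent.Results.MP_1e0c69_ag.CayleyCubic

open MvPolynomial

/-- The linear form `∑ a_i x_i`. -/
noncomputable def lin {σ : Type} [Fintype σ] (a : σ → ℂ) : MvPolynomial σ ℂ :=
  ∑ i, C (a i) * X i

/-- The Waring rank of `F` with respect to `d`-th powers of linear forms. -/
noncomputable def WR {σ : Type} [Fintype σ] (d : ℕ) (F : MvPolynomial σ ℂ) : ℕ :=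
  sInf {w : ℕ | ∃ a : Fin w → σ → ℂ, F = ∑ j, lin (a j) ^ d}

/-- The form `f + u g` in the variables `x_1, …, x_n, u`; the new variable `u` is `X none`. -/
noncomputable def adjoin {n : ℕ} (f g : MvPolynomial (Fin n) ℂ) :
    MvPolynomial (Option (Fin n)) ℂ :=
  rename some f + X none * rename some g

/-- `f = x₁x₂x₃` -/
noncomputable def f₀ : MvPolynomial (Fin 3) ℂ := X 0 * X 1 * X 2

/-- `g = x₁x₂ + x₁x₃ + x₂x₃` -/
noncomputable def g₀ : MvPolynomial (Fin 3) ℂ := X 0 * X 1 + X 0 * X 2 + X 1 * X 2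

theorem cubeRoot (c : ℂ) : ∃ κ : ℂ, κ ^ 3 = c := IsAlgClosed.exists_pow_nat_eq c (by norm_num)

theorem lin_smul {σ : Type} [Fintype σ] (κ : ℂ) (a : σ → ℂ) :
    lin (κ • a) = C κ * lin a := by
  simp [lin, Finset.mul_sum, mul_assoc]

theorem alg (a0 a1 a2 b0 b1 b2 v0 v1 v2 : ℂ)
    (e0 : a0 ^ 3 + b0 ^ 3 = 0) (e1 : a1 ^ 3 + b1 ^ 3 = 0) (e2 : a2 ^ 3 + b2 ^ 3 = 0)
    (h01 : v0 = 3 * (a0 ^ 2 * a1 + b0 ^ 2 * b1)) (h02 : v0 = 3 * (a0 ^ 2 * a2 + b0 ^ 2 * b2))
    (h10 : v1 = 3 * (a1 ^ 2 * a0 + b1 ^ 2 * b0)) (h12 : v1 = 3 * (a1 ^ 2 * a2 + b1 ^ 2 * b2))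
    (h20 : v2 = 3 * (a2 ^ 2 * a0 + b2 ^ 2 * b0)) (h21 : v2 = 3 * (a2 ^ 2 * a1 + b2 ^ 2 * b1))
    (h : 1 + v0 + v1 + v2 = 6 * (a0 * a1 * a2 + b0 * b1 * b2)) : False := by
  have na0 : a0 ≠ 0 := by
    rintro rfl
    have : b0 = 0 := by
      have : b0 ^ 3 = 0 := by simpa using e0
      exact pow_eq_zero_iff (by norm_num) |>.mp this
    subst this
    have : (1 : ℂ) = 0 := by linear_combination h - h01 - h10 - h20
    exact one_ne_zero this
  have na1 : a1 ≠ 0 := by
    rintro rfl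
    have : b1 = 0 := by
      have : b1 ^ 3 = 0 := by simpa using e1
      exact pow_eq_zero_iff (by norm_num) |>.mp this
    subst this
    have : (1 : ℂ) = 0 := by linear_combination h - h01 - h10 - h21
    exact one_ne_zero this
  have na2 : a2 ≠ 0 := by
    rintro rfl
    have : b2 = 0 := by
      have : b2 ^ 3 = 0 := by simpa using e2
      exact pow_eq_zero_iff (by norm_num) |>.mp this
    subst this
    have : (1 : ℂ) = 0 := by linear_combination h - h02 - h12 - h20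
    exact one_ne_zero this
  obtain ⟨r0, hr0⟩ : ∃ r0, b0 = -(r0 * a0) := ⟨-(b0 / a0), by field_simp⟩
  obtain ⟨p, hp⟩ : ∃ p, b1 = -(p * r0 * a1) := by
    have : r0 ≠ 0 := by
      rintro rfl
      have : a0 ^ 3 = 0 := by rw [hr0] at e0; simpa using e0
      exact na0 (pow_eq_zero_iff (by norm_num) |>.mp this)
    exact ⟨-(b1 / (r0 * a1)), by field_simp⟩
  obtain ⟨s, hs⟩ : ∃ s, b2 = -(s * r0 * a2) := by
    have : r0 ≠ 0 := by
      rintro rfl
      have : a0 ^ 3 = 0 := by rw [hr0] at e0; simpa using e0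
      exact na0 (pow_eq_zero_iff (by norm_num) |>.mp this)
    exact ⟨-(b2 / (r0 * a2)), by field_simp⟩
  subst hr0 hp hs
  have r3 : r0 ^ 3 = 1 := by
    have : a0 ^ 3 * (1 - r0 ^ 3) = 0 := by linear_combination e0
    have := (mul_eq_zero.mp this).resolve_left (pow_ne_zero 3 na0)
    linear_combination -this
  have p3 : p ^ 3 = 1 := by
    have : a1 ^ 3 * (1 - p ^ 3) = 0 := by linear_combination e1 + a1 ^ 3 * p ^ 3 * r3
    have := (mul_eq_zero.mp this).resolve_left (pow_ne_zero 3 na1)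
    linear_combination -this
  have s3 : s ^ 3 = 1 := by
    have : a2 ^ 3 * (1 - s ^ 3) = 0 := by linear_combination e2 + a2 ^ 3 * s ^ 3 * r3
    have := (mul_eq_zero.mp this).resolve_left (pow_ne_zero 3 na2)
    linear_combination -this
  have E0 : a1 * (1 - p) = a2 * (1 - s) := by
    have : a0 ^ 2 * (a1 * (1 - p) - a2 * (1 - s)) = 0 := by
      linear_combination (1 / 3) * (h02 - h01) + a0 ^ 2 * (a1 * p - a2 * s) * r3
    have := (mul_eq_zero.mp this).resolve_left (pow_ne_zero 2 na0)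
    linear_combination this
  have E1 : a0 * (1 - p ^ 2) = a2 * (1 - p ^ 2 * s) := by
    have : a1 ^ 2 * (a0 * (1 - p ^ 2) - a2 * (1 - p ^ 2 * s)) = 0 := by
      linear_combination (1 / 3) * (h12 - h10) + a1 ^ 2 * (a0 * p ^ 2 - a2 * p ^ 2 * s) * r3
    have := (mul_eq_zero.mp this).resolve_left (pow_ne_zero 2 na1)
    linear_combination this
  have E2 : a0 * (1 - s ^ 2) = a1 * (1 - s ^ 2 * p) := by
    have : a2 ^ 2 * (a0 * (1 - s ^ 2) - a1 * (1 - s ^ 2 * p)) = 0 := by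
      linear_combination (1 / 3) * (h21 - h20) + a2 ^ 2 * (a0 * s ^ 2 - a1 * s ^ 2 * p) * r3
    have := (mul_eq_zero.mp this).resolve_left (pow_ne_zero 2 na2)
    linear_combination this
  by_cases p1 : p = 1
  · subst p1
    have : a2 * (1 - s) = 0 := by linear_combination -E0
    have s1 : s = 1 := by
      have := (mul_eq_zero.mp this).resolve_left na2
      linear_combination -this
    subst s1
    have : (1 : ℂ) = 0 := by
      linear_combination h - h01 - h10 - h20 +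
        (3 * a0 ^ 2 * a1 + 3 * a1 ^ 2 * a0 + 3 * a2 ^ 2 * a0 - 6 * a0 * a1 * a2) * r3
    exact one_ne_zero this
  · have pq : p ^ 2 + p + 1 = 0 := by
      have : (p - 1) * (p ^ 2 + p + 1) = 0 := by linear_combination p3
      exact (mul_eq_zero.mp this).resolve_left (sub_ne_zero.mpr p1)
    by_cases s1 : s = 1
    · subst s1
      have : a1 * (1 - p) = 0 := by linear_combination E0
      have := (mul_eq_zero.mp this).resolve_left na1
      exact p1 (by linear_combination -this)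
    · have sq : s ^ 2 + s + 1 = 0 := by
        have : (s - 1) * (s ^ 2 + s + 1) = 0 := by linear_combination s3
        exact (mul_eq_zero.mp this).resolve_left (sub_ne_zero.mpr s1)
      have hps : (p - s) * (p + s + 1) = 0 := by linear_combination pq - sq
      rcases mul_eq_zero.mp hps with hc | hc
      · have hsp : s = p := by linear_combination -hc
        subst hsp
        have : a0 * (1 - s ^ 2) = 0 := by linear_combination E1 - a2 * s3
        have := (mul_eq_zero.mp this).resolve_left na0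
        have : s = 1 := by linear_combination s3 + s * this
        exact s1 this
      · have hsp : s = -1 - p := by linear_combination hc
        subst hsp
        have np : (1 - p) ≠ 0 := fun h => p1 (by linear_combination -h)
        -- a1 = a2 (1 + p), a2 = a0 (1 + p), a0 = a1 (1 + p)
        have F0 : a1 = a2 * (1 + p) := by
          have : (1 - p) * (a1 - a2 * (1 + p)) = 0 := by
            linear_combination E0 + a2 * pq
          have := (mul_eq_zero.mp this).resolve_left np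
          linear_combination this
        have F1 : a2 = a0 * (1 + p) := by
          have : (1 - p) * (a2 - a0 * (1 + p)) = 0 := by
            linear_combination -E1 - a2 * p * pq
          have := (mul_eq_zero.mp this).resolve_left np
          linear_combination this
        have F2 : a0 = a1 * (1 + p) := by
          have : (1 - p) * (a0 - a1 * (1 + p)) = 0 := by
            linear_combination E2 + a0 * pq - a1 * p * pq
          have := (mul_eq_zero.mp this).resolve_left np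
          linear_combination this
        have : 2 * a0 = 0 := by
          linear_combination F2 + (1 + p) * F0 + (1 + p) ^ 2 * F1 + a0 * (p + 2) * pq
        simp at this
        exact na0 this

theorem eval_lin (a p : Fin 3 → ℂ) :
    eval p (lin a) = a 0 * p 0 + a 1 * p 1 + a 2 * p 2 := by
  simp [lin, Fin.sum_univ_three]

theorem not_two (v a b : Fin 3 → ℂ) : f₀ + lin v * g₀ ≠ lin a ^ 3 + lin b ^ 3 := by
  intro h
  have H : ∀ p : Fin 3 → ℂ, p 0 * p 1 * p 2 +
      (v 0 * p 0 + v 1 * p 1 + v 2 * p 2) * (p 0 * p 1 + p 0 * p 2 + p 1 * p 2) =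
      (a 0 * p 0 + a 1 * p 1 + a 2 * p 2) ^ 3 + (b 0 * p 0 + b 1 * p 1 + b 2 * p 2) ^ 3 := by
    intro p
    have := congrArg (eval p) h
    simpa [f₀, g₀, eval_lin] using this
  have A0 := H ![1, 0, 0]
  have A1 := H ![0, 1, 0]
  have A2 := H ![0, 0, 1]
  have A01 := H ![1, 1, 0]
  have B01 := H ![1, -1, 0]
  have A02 := H ![1, 0, 1]
  have B02 := H ![1, 0, -1]
  have A12 := H ![0, 1, 1]
  have B12 := H ![0, 1, -1]
  have A := H ![1, 1, 1]
  simp at A0 A1 A2 A01 B01 A02 B02 A12 B12 A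
  have h01 : v 0 = 3 * (a 0 ^ 2 * a 1 + b 0 ^ 2 * b 1) := by
    linear_combination (1 / 2) * (A01 - B01) - A1
  have h02 : v 0 = 3 * (a 0 ^ 2 * a 2 + b 0 ^ 2 * b 2) := by
    linear_combination (1 / 2) * (A02 - B02) - A2
  have h10 : v 1 = 3 * (a 1 ^ 2 * a 0 + b 1 ^ 2 * b 0) := by
    linear_combination (1 / 2) * (A01 + B01) - A0
  have h12 : v 1 = 3 * (a 1 ^ 2 * a 2 + b 1 ^ 2 * b 2) := by
    linear_combination (1 / 2) * (A12 - B12) - A2
  have h20 : v 2 = 3 * (a 2 ^ 2 * a 0 + b 2 ^ 2 * b 0) := by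
    linear_combination (1 / 2) * (A02 + B02) - A0
  have h21 : v 2 = 3 * (a 2 ^ 2 * a 1 + b 2 ^ 2 * b 1) := by
    linear_combination (1 / 2) * (A12 + B12) - A1
  refine alg (a 0) (a 1) (a 2) (b 0) (b 1) (b 2) (v 0) (v 1) (v 2) ?_ ?_ ?_
    h01 h02 h10 h12 h20 h21 ?_
  · linear_combination -A0
  · linear_combination -A1
  · linear_combination -A2
  · linear_combination A - h01 - h02 - h10 - h12 - h20 - h21 - A0 - A1 - A2

/-- the set of lengths of Waring decompositions -/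
def Dec {σ : Type} [Fintype σ] (d w : ℕ) (F : MvPolynomial σ ℂ) : Prop :=
  ∃ a : Fin w → σ → ℂ, F = ∑ j, lin (a j) ^ d

theorem lin_zero {σ : Type} [Fintype σ] : lin (0 : σ → ℂ) = 0 := by simp [lin]

theorem Dec.add {σ : Type} [Fintype σ] {d w w' : ℕ} {F G : MvPolynomial σ ℂ}
    (h : Dec d w F) (h' : Dec d w' G) : Dec d (w + w') (F + G) := by
  obtain ⟨a, rfl⟩ := h
  obtain ⟨b, rfl⟩ := h'
  refine ⟨Fin.append a b, ?_⟩
  rw [Fin.sum_univ_add]
  simp

theorem Dec.one {σ : Type} [Fintype σ] (c : ℂ) (a : σ → ℂ) : Dec 3 1 (C c * lin a ^ 3) := by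
  obtain ⟨κ, hκ⟩ := cubeRoot c
  refine ⟨fun _ => κ • a, ?_⟩
  simp [lin_smul, mul_pow, ← map_pow, hκ]

theorem Dec.zero {σ : Type} [Fintype σ] : Dec 3 1 (0 : MvPolynomial σ ℂ) :=
  ⟨fun _ => 0, by simp [lin_zero]⟩

theorem Dec.pad {σ : Type} [Fintype σ] {w : ℕ} {F : MvPolynomial σ ℂ} (h : Dec 3 w F) (k : ℕ) :
    Dec 3 (w + k) F := by
  induction k with
  | zero => exact h
  | succ k ih =>
    have := ih.add (Dec.zero (σ := σ))
    rwa [add_zero] at this

theorem not_Dec (v : Fin 3 → ℂ) {w : ℕ} (h : Dec 3 w (f₀ + lin v * g₀)) : 3 ≤ w := by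
  by_contra hw
  have h2 : Dec 3 2 (f₀ + lin v * g₀) := by
    have := h.pad (2 - w)
    rwa [Nat.add_sub_cancel' (by omega)] at this
  obtain ⟨a, ha⟩ := h2
  rw [Fin.sum_univ_two] at ha
  exact not_two v _ _ ha

theorem lin_add {σ : Type} [Fintype σ] (a b : σ → ℂ) : lin (a + b) = lin a + lin b := by
  simp [lin, add_mul, Finset.sum_add_distrib]

theorem lin_sub {σ : Type} [Fintype σ] (a b : σ → ℂ) : lin (a - b) = lin a - lin b := by
  simp [lin, sub_mul, Finset.sum_sub_distrib]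

theorem Dec.sq {σ : Type} [Fintype σ] (c : ℂ) (a s : σ → ℂ) :
    Dec 3 3 (C c * (lin a ^ 2 * lin s)) := by
  have h := ((Dec.one (c / 6) (a + s)).add (Dec.one (-(c / 6)) (a - s))).add
    (Dec.one (-(c / 6) * 2) s)
  convert h using 1
  have e : (C c : MvPolynomial σ ℂ) = 6 * C (c / 6) := by
    have : (6 : MvPolynomial σ ℂ) = C 6 := (map_ofNat C 6).symm
    rw [this, ← map_mul]
    congr 1
    ring
  have e2 : (C (-(c / 6) * 2) : MvPolynomial σ ℂ) = -C (c / 6) * 2 := by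
    have : (2 : MvPolynomial σ ℂ) = C 2 := (map_ofNat C 2).symm
    rw [this, map_mul, map_neg]
  rw [e2, lin_add, lin_sub, map_neg, e]
  ring

theorem X_eq (i : Fin 3) : (X i : MvPolynomial (Fin 3) ℂ) = lin (Pi.single i 1) := by
  simp only [lin, Pi.single_apply]
  rw [Finset.sum_eq_single i]
  · simp
  · intro j _ hj
    simp [hj]
  · simp

theorem exists_Dec (v : Fin 3 → ℂ) : ∃ w, Dec 3 w (f₀ + lin v * g₀) := by
  obtain ⟨x, hx⟩ : ∃ x : Fin 3 → (Fin 3 → ℂ), ∀ i, (X i : MvPolynomial (Fin 3) ℂ) = lin (x i) :=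
    ⟨_, X_eq⟩
  have h := (((((Dec.sq ((1 + v 0 + v 1 + v 2) / 4) (x 1 + x 2) (x 0)).add
    (Dec.sq (-((1 + v 0 + v 1 + v 2) / 4)) (x 1 - x 2) (x 0))).add
    (Dec.sq (v 0) (x 0) (x 1 + x 2))).add
    (Dec.sq (v 1) (x 1) (x 0 + x 2))).add
    (Dec.sq (v 2) (x 2) (x 0 + x 1)))
  refine ⟨3 + 3 + 3 + 3 + 3, ?_⟩
  convert h using 1
  have e : (1 + C (v 0) + C (v 1) + C (v 2) : MvPolynomial (Fin 3) ℂ) =
      4 * C ((1 + v 0 + v 1 + v 2) / 4) := by
    have : (4 : MvPolynomial (Fin 3) ℂ) = C 4 := (map_ofNat C 4).symm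
    rw [this, ← map_mul, ← map_one C, ← map_add, ← map_add, ← map_add]
    congr 1
    ring
  have hl : lin v = C (v 0) * lin (x 0) + C (v 1) * lin (x 1) + C (v 2) * lin (x 2) := by
    rw [← hx, ← hx, ← hx, lin, Fin.sum_univ_three]
  rw [f₀, g₀, hl, hx, hx, hx, lin_add, lin_add, lin_add, lin_sub, map_neg]
  linear_combination (lin (x 0) * lin (x 1) * lin (x 2)) * e

theorem Dec_three : Dec 3 3 (f₀ + lin ![-1, 0, 0] * g₀) := by
  have h := Dec.sq (-1) (Pi.single 0 1 : Fin 3 → ℂ) (Pi.single 1 1 + Pi.single 2 1)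
  convert h using 1
  rw [lin_add, ← X_eq, ← X_eq, ← X_eq, f₀, g₀]
  simp [lin, Fin.sum_univ_three]
  ring

theorem Dec_five : Dec 3 5 (adjoin f₀ g₀) := by
  let o : Fin 3 → Option (Fin 3) → ℂ := fun i => Pi.single (some i) 1
  let u : Option (Fin 3) → ℂ := Pi.single none 1
  have ho : ∀ i, lin (o i) = X (some i) := by
    intro i
    simp only [lin, o, Pi.single_apply]
    rw [Finset.sum_eq_single (some i)]
    · simp
    · intro j _ hj
      simp [hj]
    · simp
  have hu : lin u = X none := by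
    simp only [lin, u, Pi.single_apply]
    rw [Finset.sum_eq_single none]
    · simp
    · intro j _ hj
      simp [hj]
    · simp
  have h := ((((Dec.one (1 / 24 * 2) (o 0 + o 1 + o 2 + u)).add
    (Dec.one (-(1 / 24)) (o 0 + o 1 + o 2 - u))).add
    (Dec.one (-(1 / 24)) (o 0 + o 1 - o 2 + u))).add
    (Dec.one (-(1 / 24)) (o 0 - o 1 + o 2 + u))).add
    (Dec.one (-(1 / 24)) (o 1 - o 0 + o 2 + u))
  convert h using 1
  simp only [lin_add, lin_sub, ho, hu, map_neg, adjoin, f₀, g₀, map_add, map_mul, rename_X]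
  have e : (C 2 : MvPolynomial (Option (Fin 3)) ℂ) = 2 := map_ofNat C 2
  have e1 : (1 : MvPolynomial (Option (Fin 3)) ℂ) = 24 * C (1 / 24) := by
    have : (24 : MvPolynomial (Option (Fin 3)) ℂ) = C 24 := (map_ofNat C 24).symm
    rw [this, ← map_mul]
    norm_num
  rw [e]
  linear_combination (X (some 0) * X (some 1) * X (some 2) + X none *
    (X (some 0) * X (some 1) + X (some 0) * X (some 2) + X (some 1) * X (some 2))) * e1

theorem WR_eq {σ : Type} [Fintype σ] (F : MvPolynomial σ ℂ) : WR 3 F = sInf {w | Dec 3 w F} := rfl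

/-- For `f = x₁x₂x₃`, `g = x₁x₂ + x₁x₃ + x₂x₃` (so `n = d = 3`) one has `WR(f + u g) ≤ 5` and
`min_v WR(f + v g) = 3`, so that `WR(f + u g) < d + min_v WR(f + v g)`. -/
theorem result :
    f₀.IsHomogeneous 3 ∧ g₀.IsHomogeneous 2 ∧ f₀ ≠ 0 ∧ g₀ ≠ 0 ∧
    (∀ v : Fin 3 → ℂ, ∃ w, ∃ a : Fin w → Fin 3 → ℂ, f₀ + lin v * g₀ = ∑ j, lin (a j) ^ 3) ∧
    (∃ a : Fin 5 → Option (Fin 3) → ℂ, adjoin f₀ g₀ = ∑ j, lin (a j) ^ 3) ∧
    (⨅ v : Fin 3 → ℂ, WR 3 (f₀ + lin v * g₀)) = 3 ∧
    WR 3 (adjoin f₀ g₀) < 3 + ⨅ v : Fin 3 → ℂ, WR 3 (f₀ + lin v * g₀) := by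
  have hinf : (⨅ v : Fin 3 → ℂ, WR 3 (f₀ + lin v * g₀)) = 3 := by
    apply le_antisymm
    · refine (ciInf_le ⟨0, fun _ _ => Nat.zero_le _⟩ (![-1, 0, 0] : Fin 3 → ℂ)).trans ?_
      exact Nat.sInf_le Dec_three
    · refine le_ciInf fun v => ?_
      rw [WR_eq]
      exact le_csInf (exists_Dec v) fun w hw => not_Dec v hw
  refine ⟨?_, ?_, ?_, ?_, exists_Dec, Dec_five, hinf, ?_⟩
  · exact ((isHomogeneous_X ℂ (0 : Fin 3)).mul (isHomogeneous_X ℂ 1)).mul (isHomogeneous_X ℂ 2)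
  · exact (((isHomogeneous_X ℂ (0 : Fin 3)).mul (isHomogeneous_X ℂ 1)).add
      ((isHomogeneous_X ℂ 0).mul (isHomogeneous_X ℂ 2))).add
      ((isHomogeneous_X ℂ 1).mul (isHomogeneous_X ℂ 2))
  · intro h
    have := congrArg (eval (fun _ => (1 : ℂ))) h
    simp [f₀] at this
  · intro h
    have := congrArg (eval (fun _ => (1 : ℂ))) h
    simp [g₀] at this
    norm_num at this
  · rw [hinf]
    have : WR 3 (adjoin f₀ g₀) ≤ 5 := Nat.sInf_le Dec_five
    omega

end Pool.Agent.Results.MP_1e0c69_ag.CayleyCubic
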